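import Mathlib
import Pool.Agent.Helper50.SP.Avg

/-! Random subsets and spread distributions: a second moment and repeated exposure. -/

set_option autoImplicit false

open Finset

namespace Pool.Agent.Helper50.TS

open Pool.Agent.Helper50.SP (choose_ratio card_supersets)

/-- a probability distribution on the `m`-element subsets of `V` with small probabilities of containing a
given set -/
def SpreadM (C : ℝ) (m : ℕ) (V : Finset ℕ) (ν : Finset ℕ → ℝ) : Prop :=
  (∀ H, 0 ≤ ν H) ∧ ∑ H ∈ V.powersetCard m, ν H = 1 ∧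
    ∀ U ⊆ V, U.card ≤ m →
      ∑ H ∈ V.powersetCard m with U ⊆ H, ν H ≤ (C * m * U.card / V.card) ^ U.card

theorem choose_lower (n k m : ℕ) (hmk : m ≤ k) (hkn : k ≤ n) : ∀ j : ℕ, j ≤ m →
    ((n.choose k : ℕ) : ℝ) * ((k : ℝ) - m) ^ j ≤ (((n - j).choose (k - j) : ℕ) : ℝ) * ((n : ℝ) - m) ^ j := by
  intro j
  induction j with
  | zero => intro _; simp
  | succ j ih =>
    intro hj
    have h1 := ih (by omega)
    obtain ⟨n', hn'⟩ : ∃ n', n - j = n' + 1 := ⟨n - j - 1, by omega⟩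
    obtain ⟨k', hk'⟩ : ∃ k', k - j = k' + 1 := ⟨k - j - 1, by omega⟩
    have e1 : n - (j + 1) = n' := by omega
    have e2 : k - (j + 1) = k' := by omega
    rw [e1, e2]
    rw [hn', hk'] at h1
    have h2 := Nat.add_one_mul_choose_eq n' k'
    have h2' : ((n' : ℝ) + 1) * (n'.choose k' : ℕ) = ((n' + 1).choose (k' + 1) : ℕ) * ((k' : ℝ) + 1) := by
      exact_mod_cast h2
    have hn1 : (n : ℝ) = n' + 1 + j := by
      have : n = n' + 1 + j := by omega
      exact_mod_cast this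
    have hk1 : (k : ℝ) = k' + 1 + j := by
      have : k = k' + 1 + j := by omega
      exact_mod_cast this
    have hkn' : (k : ℝ) ≤ n := by exact_mod_cast hkn
    have hmk' : (m : ℝ) ≤ k := by exact_mod_cast hmk
    have hjm : (j : ℝ) + 1 ≤ m := by exact_mod_cast hj
    have hj0 : (0 : ℝ) ≤ j := Nat.cast_nonneg _
    have hk0 : (0 : ℝ) < (k' : ℝ) + 1 := by positivity
    have h3 : (((n' + 1).choose (k' + 1) : ℕ) : ℝ) * ((k : ℝ) - m) ≤ ((n'.choose k' : ℕ) : ℝ) * ((n : ℝ) - m) := by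
      refine le_of_mul_le_mul_left ?_ hk0
      have h4 : (0 : ℝ) ≤ ((n'.choose k' : ℕ) : ℝ) := Nat.cast_nonneg _
      calc ((k' : ℝ) + 1) * ((((n' + 1).choose (k' + 1) : ℕ) : ℝ) * ((k : ℝ) - m)) =
          ((((n' + 1).choose (k' + 1) : ℕ) : ℝ) * ((k' : ℝ) + 1)) * ((k : ℝ) - m) := by ring
        _ = ((n'.choose k' : ℕ) : ℝ) * (((n' : ℝ) + 1) * ((k : ℝ) - m)) := by rw [← h2']; ring
        _ ≤ ((n'.choose k' : ℕ) : ℝ) * (((k' : ℝ) + 1) * ((n : ℝ) - m)) := by
            apply mul_le_mul_of_nonneg_left _ h4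
            have e3 : (n' : ℝ) + 1 = n - j := by linarith
            have e4 : (k' : ℝ) + 1 = k - j := by linarith
            rw [e3, e4]
            nlinarith [mul_nonneg (sub_nonneg.2 hkn') (sub_nonneg.2 (show (j : ℝ) ≤ m by linarith))]
        _ = _ := by ring
    have h5 : (0 : ℝ) ≤ (k : ℝ) - m := by linarith
    have h6 : (0 : ℝ) ≤ (n : ℝ) - m := by linarith
    calc ((n.choose k : ℕ) : ℝ) * ((k : ℝ) - m) ^ (j + 1) =
        (((n.choose k : ℕ) : ℝ) * ((k : ℝ) - m) ^ j) * ((k : ℝ) - m) := by ring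
      _ ≤ ((((n' + 1).choose (k' + 1) : ℕ) : ℝ) * ((n : ℝ) - m) ^ j) * ((k : ℝ) - m) :=
          mul_le_mul_of_nonneg_right h1 h5
      _ = ((((n' + 1).choose (k' + 1) : ℕ) : ℝ) * ((k : ℝ) - m)) * ((n : ℝ) - m) ^ j := by ring
      _ ≤ (((n'.choose k' : ℕ) : ℝ) * ((n : ℝ) - m)) * ((n : ℝ) - m) ^ j :=
          mul_le_mul_of_nonneg_right h3 (pow_nonneg h6 _)
      _ = _ := by ring

/-- the number of the supersets of `H ∪ H'` -/
theorem pair_bound (V : Finset ℕ) (m T : ℕ) (hmT : m < T) (hTV : T ≤ V.card) (H H' : Finset ℕ) (hH : H ∈ V.powersetCard m)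
    (hH' : H' ∈ V.powersetCard m) :
    ((((V.powersetCard T).filter (fun W => H ⊆ W ∧ H' ⊆ W)).card : ℕ) : ℝ) ≤
      (((V.card - m).choose (T - m) : ℕ) : ℝ) * (((T : ℝ) - m) / ((V.card : ℝ) - m)) ^ (m - (H ∩ H').card) := by
  rw [mem_powersetCard] at hH hH'
  have hmT' : (m : ℝ) < T := by exact_mod_cast hmT
  have hTV' : (T : ℝ) ≤ V.card := by exact_mod_cast hTV
  have hpos1 : (0 : ℝ) < (T : ℝ) - m := by linarith
  have hpos2 : (0 : ℝ) < (V.card : ℝ) - m := by linarith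
  have e1 : (V.powersetCard T).filter (fun W => H ⊆ W ∧ H' ⊆ W) =
      (V.powersetCard T).filter (fun W => H ∪ H' ⊆ W) := by
    apply filter_congr
    intro W _
    rw [union_subset_iff]
  rw [e1]
  have hi : (H ∩ H').card ≤ m := by
    rw [← hH.2]
    exact card_le_card inter_subset_left
  have hu : (H ∪ H').card + (H ∩ H').card = m + m := by
    rw [card_union_add_card_inter, hH.2, hH'.2]
  by_cases huT : (H ∪ H').card ≤ T
  · rw [card_supersets V (H ∪ H') (union_subset hH.1 hH'.1) T huT]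
    obtain ⟨j, hj⟩ : ∃ j, j = m - (H ∩ H').card := ⟨_, rfl⟩
    rw [← hj]
    have e2 : V.card - (H ∪ H').card = (V.card - m) - j := by omega
    have e3 : T - (H ∪ H').card = (T - m) - j := by omega
    rw [e2, e3]
    have h1 := choose_ratio (V.card - m) (T - m) (by omega) j (by omega)
    have e4 : ((V.card - m : ℕ) : ℝ) = (V.card : ℝ) - m := by
      rw [Nat.cast_sub (by omega)]
    have e5 : ((T - m : ℕ) : ℝ) = (T : ℝ) - m := by
      rw [Nat.cast_sub (by omega)]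
    rw [e4, e5] at h1
    rw [div_pow, ← mul_div_assoc, le_div_iff₀ (pow_pos hpos2 _)]
    exact h1
  · have e2 : (V.powersetCard T).filter (fun W => H ∪ H' ⊆ W) = ∅ := by
      rw [filter_eq_empty_iff]
      intro W hW hHW
      have := card_le_card hHW
      rw [(mem_powersetCard.1 hW).2] at this
      exact huT this
    rw [e2, card_empty, Nat.cast_zero]
    positivity

/-- the second moment -/
theorem inner_bound (C : ℝ) (m : ℕ) (V : Finset ℕ) (ν : Finset ℕ → ℝ) (hν : SpreadM C m V ν)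
    (ρ : ℝ) (hρ : 0 ≤ ρ) (H : Finset ℕ) (hH : H ∈ V.powersetCard m) :
    ∑ H' ∈ V.powersetCard m, ν H' * ρ ^ (m - (H ∩ H').card) ≤
      ∑ i ∈ range (m + 1), (m.choose i : ℝ) * (C * m * i / V.card) ^ i * ρ ^ (m - i) := by
  rw [mem_powersetCard] at hH
  have h1 : ∀ H' ∈ V.powersetCard m, ν H' * ρ ^ (m - (H ∩ H').card) ≤
      ∑ i ∈ range (m + 1), ∑ U ∈ H.powersetCard i, if U ⊆ H' then ν H' * ρ ^ (m - i) else 0 := by
    intro H' _
    have hi : (H ∩ H').card ∈ range (m + 1) := by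
      rw [mem_range, ← hH.2]
      exact Nat.lt_succ_of_le (card_le_card inter_subset_left)
    have hnn : ∀ i ∈ range (m + 1), ∀ U ∈ H.powersetCard i,
        0 ≤ if U ⊆ H' then ν H' * ρ ^ (m - i) else 0 := by
      intro i _ U _
      split_ifs
      · exact mul_nonneg (hν.1 _) (pow_nonneg hρ _)
      · exact le_rfl
    have hU : H ∩ H' ∈ H.powersetCard (H ∩ H').card := mem_powersetCard.2 ⟨inter_subset_left, rfl⟩
    calc ν H' * ρ ^ (m - (H ∩ H').card) =
        if H ∩ H' ⊆ H' then ν H' * ρ ^ (m - (H ∩ H').card) else 0 := by rw [if_pos inter_subset_right]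
      _ ≤ ∑ U ∈ H.powersetCard (H ∩ H').card, if U ⊆ H' then ν H' * ρ ^ (m - (H ∩ H').card) else 0 :=
          single_le_sum (f := fun U => if U ⊆ H' then ν H' * ρ ^ (m - (H ∩ H').card) else 0)
            (fun U hU' => hnn _ hi U hU') hU
      _ ≤ _ := single_le_sum (f := fun i => ∑ U ∈ H.powersetCard i, if U ⊆ H' then ν H' * ρ ^ (m - i) else 0)
            (fun i hi' => sum_nonneg (fun U hU' => hnn i hi' U hU')) hi
  refine (sum_le_sum h1).trans ?_
  rw [sum_comm]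
  refine sum_le_sum fun i hi => ?_
  rw [sum_comm]
  have h2 : ∀ U ∈ H.powersetCard i, (∑ H' ∈ V.powersetCard m, if U ⊆ H' then ν H' * ρ ^ (m - i) else 0) ≤
      (C * m * i / V.card) ^ i * ρ ^ (m - i) := by
    intro U hU
    rw [mem_powersetCard] at hU
    rw [← sum_filter, ← sum_mul]
    apply mul_le_mul_of_nonneg_right _ (pow_nonneg hρ _)
    have h3 := hν.2.2 U (hU.1.trans hH.1) (by rw [hU.2]; exact Nat.lt_succ_iff.1 (mem_range.1 hi))
    rw [hU.2] at h3
    exact h3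
  refine (sum_le_sum h2).trans ?_
  rw [sum_const, card_powersetCard, hH.2, nsmul_eq_mul]
  exact le_of_eq (by ring)

/-- a random set with `T` elements contains a set of positive weight with probability at least
`1 / ∑ C(m, i) (C m i / (T - m)) ^ i` -/
theorem second (C : ℝ) (hC : 0 ≤ C) (m : ℕ) (V : Finset ℕ) (ν : Finset ℕ → ℝ) (hν : SpreadM C m V ν)
    (T : ℕ) (hmT : m < T) (hTV : T ≤ V.card) (G : Finset (Finset ℕ))
    (hG : ∀ W ∈ V.powersetCard T, (∃ H ∈ V.powersetCard m, H ⊆ W ∧ ν H ≠ 0) → W ∈ G) (hGsub : G ⊆ V.powersetCard T) :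
    ((V.card.choose T : ℕ) : ℝ) ≤ (G.card : ℝ) * ∑ i ∈ range (m + 1), (m.choose i : ℝ) * (C * m * i / ((T : ℝ) - m)) ^ i := by
  classical
  have hmT' : (m : ℝ) < T := by exact_mod_cast hmT
  have hTV' : (T : ℝ) ≤ V.card := by exact_mod_cast hTV
  have hpos1 : (0 : ℝ) < (T : ℝ) - m := by linarith
  have hpos2 : (0 : ℝ) < (V.card : ℝ) - m := by linarith
  obtain ⟨ρ, hρ⟩ : ∃ ρ : ℝ, ρ = ((T : ℝ) - m) / ((V.card : ℝ) - m) := ⟨_, rfl⟩
  have hρ0 : 0 < ρ := by rw [hρ]; positivity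
  obtain ⟨M, hM⟩ : ∃ M : ℝ, M = (((V.card - m).choose (T - m) : ℕ) : ℝ) := ⟨_, rfl⟩
  have hM0 : 0 < M := by
    rw [hM]
    exact_mod_cast Nat.choose_pos (by omega)
  obtain ⟨X, hX⟩ : ∃ X : Finset ℕ → ℝ, X = fun W => ∑ H ∈ V.powersetCard m, if H ⊆ W then ν H else 0 := ⟨_, rfl⟩
  have hX' : ∀ W, X W = ∑ H ∈ V.powersetCard m, if H ⊆ W then ν H else 0 := fun W => by rw [hX]
  -- first moment
  have hfirst : ∑ W ∈ V.powersetCard T, X W = M := by
    simp_rw [hX']
    rw [sum_comm]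
    have h1 : ∀ H ∈ V.powersetCard m, (∑ W ∈ V.powersetCard T, if H ⊆ W then ν H else 0) = M * ν H := by
      intro H hH
      rw [mem_powersetCard] at hH
      rw [← sum_filter, sum_const, nsmul_eq_mul, card_supersets V H hH.1 T (by omega), hH.2, hM]
    rw [sum_congr rfl h1, ← mul_sum, hν.2.1, mul_one]
  -- second moment
  have hsecond : ∑ W ∈ V.powersetCard T, X W ^ 2 ≤
      M * ∑ i ∈ range (m + 1), (m.choose i : ℝ) * (C * m * i / V.card) ^ i * ρ ^ (m - i) := by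
    have h1 : ∀ W ∈ V.powersetCard T, X W ^ 2 =
        ∑ H ∈ V.powersetCard m, ∑ H' ∈ V.powersetCard m, if H ⊆ W ∧ H' ⊆ W then ν H * ν H' else 0 := by
      intro W _
      rw [hX', sq, sum_mul_sum]
      refine sum_congr rfl fun H _ => sum_congr rfl fun H' _ => ?_
      by_cases h1 : H ⊆ W <;> by_cases h2 : H' ⊆ W <;> simp [h1, h2]
    rw [sum_congr rfl h1, sum_comm]
    have h2 : ∀ H ∈ V.powersetCard m, (∑ W ∈ V.powersetCard T, ∑ H' ∈ V.powersetCard m,
        if H ⊆ W ∧ H' ⊆ W then ν H * ν H' else 0) ≤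
          ν H * (M * ∑ i ∈ range (m + 1), (m.choose i : ℝ) * (C * m * i / V.card) ^ i * ρ ^ (m - i)) := by
      intro H hH
      rw [sum_comm]
      have h3 : ∀ H' ∈ V.powersetCard m, (∑ W ∈ V.powersetCard T, if H ⊆ W ∧ H' ⊆ W then ν H * ν H' else 0) ≤
          ν H * (M * (ν H' * ρ ^ (m - (H ∩ H').card))) := by
        intro H' hH'
        rw [← sum_filter, sum_const, nsmul_eq_mul]
        have h4 := pair_bound V m T hmT hTV H H' hH hH'
        rw [← hM, ← hρ] at h4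
        have h5 : 0 ≤ ν H * ν H' := mul_nonneg (hν.1 _) (hν.1 _)
        calc _ ≤ (M * ρ ^ (m - (H ∩ H').card)) * (ν H * ν H') := mul_le_mul_of_nonneg_right h4 h5
          _ = _ := by ring
      refine (sum_le_sum h3).trans ?_
      rw [← mul_sum, ← mul_sum]
      exact mul_le_mul_of_nonneg_left (mul_le_mul_of_nonneg_left
        (inner_bound C m V ν hν ρ hρ0.le H hH) hM0.le) (hν.1 _)
    refine (sum_le_sum h2).trans ?_
    rw [← sum_mul, hν.2.1, one_mul]
  -- Cauchy-Schwarz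
  have hCS : M ^ 2 ≤ (G.card : ℝ) * ∑ W ∈ V.powersetCard T, X W ^ 2 := by
    have h1 : ∑ W ∈ V.powersetCard T, X W = ∑ W ∈ G, X W := by
      symm
      apply sum_subset hGsub
      intro W hW hWG
      rw [hX']
      apply sum_eq_zero
      intro H hH
      split_ifs with hHW
      · by_contra hne
        exact hWG (hG W hW ⟨H, hH, hHW, hne⟩)
      · rfl
    rw [← hfirst, h1]
    refine (sq_sum_le_card_mul_sum_sq (s := G) (f := X)).trans ?_
    apply mul_le_mul_of_nonneg_left _ (Nat.cast_nonneg _)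
    exact sum_le_sum_of_subset_of_nonneg hGsub (fun W _ _ => sq_nonneg _)
  have h1 : M ≤ (G.card : ℝ) * ∑ i ∈ range (m + 1), (m.choose i : ℝ) * (C * m * i / V.card) ^ i * ρ ^ (m - i) := by
    refine le_of_mul_le_mul_left ?_ hM0
    calc M * M = M ^ 2 := by ring
      _ ≤ (G.card : ℝ) * ∑ W ∈ V.powersetCard T, X W ^ 2 := hCS
      _ ≤ (G.card : ℝ) * (M * ∑ i ∈ range (m + 1), (m.choose i : ℝ) * (C * m * i / V.card) ^ i * ρ ^ (m - i)) :=
          mul_le_mul_of_nonneg_left hsecond (Nat.cast_nonneg _)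
      _ = _ := by ring
  have h2 : ((V.card.choose T : ℕ) : ℝ) * ρ ^ m ≤ M := by
    have h3 := choose_lower V.card T m hmT.le hTV m le_rfl
    rw [← hM] at h3
    rw [hρ, div_pow, ← mul_div_assoc, div_le_iff₀ (pow_pos hpos2 _)]
    exact h3
  have h3 : ∑ i ∈ range (m + 1), (m.choose i : ℝ) * (C * m * i / V.card) ^ i * ρ ^ (m - i) ≤
      ρ ^ m * ∑ i ∈ range (m + 1), (m.choose i : ℝ) * (C * m * i / ((T : ℝ) - m)) ^ i := by
    rw [mul_sum]
    refine sum_le_sum fun i hi => ?_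
    have him : i ≤ m := Nat.lt_succ_iff.1 (mem_range.1 hi)
    have h4 : C * m * i / V.card ≤ (C * m * i / ((T : ℝ) - m)) * ρ := by
      rw [hρ]
      have h5 : C * m * i / ((T : ℝ) - m) * (((T : ℝ) - m) / ((V.card : ℝ) - m)) = C * m * i / ((V.card : ℝ) - m) := by
        field_simp
      rw [h5]
      apply div_le_div_of_nonneg_left (by positivity) hpos2
      have : (0 : ℝ) ≤ m := Nat.cast_nonneg _
      linarith
    calc (m.choose i : ℝ) * (C * m * i / V.card) ^ i * ρ ^ (m - i) ≤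
        (m.choose i : ℝ) * ((C * m * i / ((T : ℝ) - m)) * ρ) ^ i * ρ ^ (m - i) := by gcongr
      _ = ρ ^ (i + (m - i)) * ((m.choose i : ℝ) * (C * m * i / ((T : ℝ) - m)) ^ i) := by
          rw [mul_pow, pow_add]; ring
      _ = _ := by rw [Nat.add_sub_cancel' him]
  refine le_of_mul_le_mul_left ?_ (pow_pos hρ0 m)
  calc ρ ^ m * ((V.card.choose T : ℕ) : ℝ) = ((V.card.choose T : ℕ) : ℝ) * ρ ^ m := by ring
    _ ≤ M := h2
    _ ≤ _ := h1
    _ ≤ (G.card : ℝ) * (ρ ^ m * ∑ i ∈ range (m + 1), (m.choose i : ℝ) * (C * m * i / ((T : ℝ) - m)) ^ i) :=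
        mul_le_mul_of_nonneg_left h3 (Nat.cast_nonneg _)
    _ = _ := by ring

theorem choose_mul_pow_le (m i : ℕ) : (m.choose i : ℝ) * (i : ℝ) ^ i ≤ (3 * m) ^ i := by
  have h1 : (m.choose i : ℝ) ≤ (m : ℝ) ^ i / (i.factorial : ℝ) := Nat.choose_le_pow_div i m
  have h2 : (i : ℝ) ^ i / (i.factorial : ℝ) ≤ Real.exp i := Real.pow_div_factorial_le_exp _ (Nat.cast_nonneg _) _
  have h3 : Real.exp i ≤ 3 ^ i := by
    have h4 : Real.exp i = Real.exp 1 ^ i := by
      rw [← Real.exp_nat_mul, mul_one]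
    rw [h4]
    exact pow_le_pow_left₀ (Real.exp_pos _).le (by linarith [Real.exp_one_lt_d9]) _
  have h5 : (0 : ℝ) ≤ (i : ℝ) ^ i := by positivity
  calc (m.choose i : ℝ) * (i : ℝ) ^ i ≤ ((m : ℝ) ^ i / (i.factorial : ℝ)) * (i : ℝ) ^ i :=
      mul_le_mul_of_nonneg_right h1 h5
    _ = (m : ℝ) ^ i * ((i : ℝ) ^ i / (i.factorial : ℝ)) := by ring
    _ ≤ (m : ℝ) ^ i * 3 ^ i := mul_le_mul_of_nonneg_left (h2.trans h3) (by positivity)
    _ = _ := by rw [mul_pow]; ring

theorem sum_bound (C D : ℝ) (hC : 0 ≤ C) (hD : 0 < D) (m : ℕ) :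
    ∑ i ∈ range (m + 1), (m.choose i : ℝ) * (C * m * i / D) ^ i ≤ ∑ i ∈ range (m + 1), (3 * C * m ^ 2 / D) ^ i := by
  refine sum_le_sum fun i _ => ?_
  have h1 : (C * m * i / D) ^ i = (C * m / D) ^ i * (i : ℝ) ^ i := by
    rw [← mul_pow]; congr 1; ring
  have h2 : (3 * C * m ^ 2 / D) ^ i = (C * m / D) ^ i * (3 * m) ^ i := by
    rw [← mul_pow]; congr 1; ring
  rw [h1, h2]
  calc (m.choose i : ℝ) * ((C * m / D) ^ i * (i : ℝ) ^ i) = (C * m / D) ^ i * ((m.choose i : ℝ) * (i : ℝ) ^ i) := by ring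
    _ ≤ _ := mul_le_mul_of_nonneg_left (choose_mul_pow_le m i) (by positivity)

theorem geom_le_two (y : ℝ) (hy0 : 0 ≤ y) (hy : y ≤ 1 / 2) (m : ℕ) : ∑ i ∈ range (m + 1), y ^ i ≤ 2 := by
  calc ∑ i ∈ range (m + 1), y ^ i ≤ ∑ i ∈ range (m + 1), (1 / 2 : ℝ) ^ i :=
      sum_le_sum fun i _ => pow_le_pow_left₀ hy0 hy _
    _ ≤ _ := by
        rw [geom_sum_eq (by norm_num)]
        have : (0 : ℝ) ≤ (1 / 2) ^ (m + 1) := by positivity
        have h2 : ((1 / 2 : ℝ) ^ (m + 1) - 1) / (1 / 2 - 1) = 2 - 2 * (1 / 2) ^ (m + 1) := by ring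
        rw [h2]
        linarith

/-- the `T`-element subsets of `V` which contain no good set with `m` elements -/
noncomputable def Bad (good : Finset ℕ → Prop) (m : ℕ) (V : Finset ℕ) (T : ℕ) : Finset (Finset ℕ) := by
  classical
  exact (V.powersetCard T).filter (fun W => ∀ H ⊆ W, H.card = m → ¬ good H)

theorem mem_Bad (good : Finset ℕ → Prop) (m : ℕ) (V : Finset ℕ) (T : ℕ) (W : Finset ℕ) :
    W ∈ Bad good m V T ↔ (W ⊆ V ∧ W.card = T) ∧ ∀ H ⊆ W, H.card = m → ¬ good H := by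
  classical
  unfold Bad
  rw [mem_filter, mem_powersetCard]

/-- repeated exposure -/
theorem expose_step (good : Finset ℕ → Prop) (m : ℕ) (V : Finset ℕ) (T₀ T₁ : ℕ) :
    (Bad good m V (T₀ + T₁)).card * (T₀ + T₁).choose T₀ ≤
      ∑ W ∈ Bad good m V T₀, (Bad good m (V \ W) T₁).card := by
  classical
  have h1 : (Bad good m V (T₀ + T₁)).card * (T₀ + T₁).choose T₀ =
      ((Bad good m V (T₀ + T₁)).sigma (fun W => W.powersetCard T₀)).card := by
    rw [card_sigma, sum_congr rfl (fun W hW => by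
      rw [card_powersetCard, ((mem_Bad _ _ _ _ _).1 hW).1.2]), sum_const, smul_eq_mul]
  have h2 : ∑ W ∈ Bad good m V T₀, (Bad good m (V \ W) T₁).card =
      ((Bad good m V T₀).sigma (fun W => Bad good m (V \ W) T₁)).card := by
    rw [card_sigma]
  rw [h1, h2]
  apply card_le_card_of_injOn (fun z => ⟨z.2, z.1 \ z.2⟩)
  · intro z hz
    have hz' := mem_sigma.1 (mem_coe.1 hz)
    obtain ⟨hz1, hz2⟩ := hz'
    rw [mem_Bad] at hz1
    rw [mem_powersetCard] at hz2
    apply mem_coe.2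
    rw [mem_sigma]
    refine ⟨?_, ?_⟩
    · rw [mem_Bad]
      exact ⟨⟨hz2.1.trans hz1.1.1, hz2.2⟩, fun H hH => hz1.2 H (hH.trans hz2.1)⟩
    · rw [mem_Bad]
      refine ⟨⟨sdiff_subset_sdiff hz1.1.1 (Subset.refl _), ?_⟩, fun H hH => hz1.2 H (hH.trans sdiff_subset)⟩
      rw [card_sdiff_of_subset hz2.1, hz1.1.2, hz2.2]
      omega
  · intro z hz w hw hzw
    have hz' := mem_sigma.1 (mem_coe.1 hz)
    have hw' := mem_sigma.1 (mem_coe.1 hw)
    obtain ⟨z1, z2⟩ := z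
    obtain ⟨w1, w2⟩ := w
    simp only [Sigma.mk.injEq, heq_eq_eq] at hzw ⊢
    obtain ⟨e1, e2⟩ := hzw
    have hz3 := (mem_powersetCard.1 hz'.2).1
    have hw3 := (mem_powersetCard.1 hw'.2).1
    simp only at hz3 hw3
    refine ⟨?_, e1⟩
    rw [← sdiff_union_of_subset hz3, ← sdiff_union_of_subset hw3, e2, e1]

theorem expose (good : Finset ℕ → Prop) (m T₀ N₀ : ℕ) (V : Finset ℕ)
    (h : ∀ V' ⊆ V, N₀ ≤ V'.card → 2 * (Bad good m V' T₀).card ≤ V'.card.choose T₀) :
    ∀ s T : ℕ, ∀ V' ⊆ V, s * T₀ ≤ T → N₀ + T ≤ V'.card →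
      2 ^ s * (Bad good m V' T).card ≤ V'.card.choose T := by
  classical
  intro s
  induction s with
  | zero =>
    intro T V' _ _ _
    rw [pow_zero, one_mul, ← card_powersetCard]
    apply card_le_card
    intro W hW
    exact mem_powersetCard.2 ((mem_Bad _ _ _ _ _).1 hW).1
  | succ s ih =>
    intro T V' hV' hsT hN
    obtain ⟨T₁, hT₁⟩ : ∃ T₁, T = T₀ + T₁ := ⟨T - T₀, by rw [Nat.succ_mul] at hsT; omega⟩
    subst hT₁
    have h1 := expose_step good m V' T₀ T₁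
    have h2 : ∀ W ∈ Bad good m V' T₀, 2 ^ s * (Bad good m (V' \ W) T₁).card ≤ (V'.card - T₀).choose T₁ := by
      intro W hW
      rw [mem_Bad] at hW
      have hc : (V' \ W).card = V'.card - T₀ := by rw [card_sdiff_of_subset hW.1.1, hW.1.2]
      have := ih T₁ (V' \ W) (sdiff_subset.trans hV') (by rw [Nat.succ_mul] at hsT; omega) (by omega)
      rwa [hc] at this
    have h3 : 2 ^ s * ((Bad good m V' (T₀ + T₁)).card * (T₀ + T₁).choose T₀) ≤
        (Bad good m V' T₀).card * (V'.card - T₀).choose T₁ := by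
      calc 2 ^ s * ((Bad good m V' (T₀ + T₁)).card * (T₀ + T₁).choose T₀) ≤
          2 ^ s * ∑ W ∈ Bad good m V' T₀, (Bad good m (V' \ W) T₁).card := Nat.mul_le_mul_left _ h1
        _ = ∑ W ∈ Bad good m V' T₀, 2 ^ s * (Bad good m (V' \ W) T₁).card := by rw [mul_sum]
        _ ≤ ∑ W ∈ Bad good m V' T₀, (V'.card - T₀).choose T₁ := sum_le_sum h2
        _ = _ := by rw [sum_const, smul_eq_mul]
    have h4 := h V' hV' (by omega)
    have h5 : V'.card.choose (T₀ + T₁) * (T₀ + T₁).choose T₀ = V'.card.choose T₀ * (V'.card - T₀).choose T₁ := by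
      rw [Nat.choose_mul (by omega : T₀ ≤ T₀ + T₁)]
      congr 2
      omega
    have h6 : 0 < (T₀ + T₁).choose T₀ := Nat.choose_pos (by omega)
    apply Nat.le_of_mul_le_mul_right _ h6
    rw [h5]
    calc 2 ^ (s + 1) * (Bad good m V' (T₀ + T₁)).card * (T₀ + T₁).choose T₀ =
        2 * (2 ^ s * ((Bad good m V' (T₀ + T₁)).card * (T₀ + T₁).choose T₀)) := by ring
      _ ≤ 2 * ((Bad good m V' T₀).card * (V'.card - T₀).choose T₁) := Nat.mul_le_mul_left _ h3
      _ = (2 * (Bad good m V' T₀).card) * (V'.card - T₀).choose T₁ := by ring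
      _ ≤ _ := Nat.mul_le_mul_right _ h4

/-- the `T`-element subsets of `V` which contain a good set with `m` elements -/
noncomputable def Fine (good : Finset ℕ → Prop) (m : ℕ) (V : Finset ℕ) (T : ℕ) : Finset (Finset ℕ) := by
  classical
  exact (V.powersetCard T).filter (fun W => ∃ H ⊆ W, H.card = m ∧ good H)

theorem mem_Fine (good : Finset ℕ → Prop) (m : ℕ) (V : Finset ℕ) (T : ℕ) (W : Finset ℕ) :
    W ∈ Fine good m V T ↔ (W ⊆ V ∧ W.card = T) ∧ ∃ H ⊆ W, H.card = m ∧ good H := by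
  classical
  unfold Fine
  rw [mem_filter, mem_powersetCard]

theorem card_Fine_add (good : Finset ℕ → Prop) (m : ℕ) (V : Finset ℕ) (T : ℕ) :
    (Fine good m V T).card + (Bad good m V T).card = V.card.choose T := by
  classical
  have e1 : Fine good m V T = (V.powersetCard T).filter (fun W => ∃ H ⊆ W, H.card = m ∧ good H) := by
    ext W
    rw [mem_Fine, mem_filter, mem_powersetCard]
  have e2 : Bad good m V T = (V.powersetCard T).filter (fun W => ¬ ∃ H ⊆ W, H.card = m ∧ good H) := by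
    ext W
    rw [mem_Bad, mem_filter, mem_powersetCard]
    push Not
    rfl
  rw [e1, e2, ← card_powersetCard T V]
  exact card_filter_add_card_filter_not (s := V.powersetCard T) (fun W => ∃ H ⊆ W, H.card = m ∧ good H)

/-- the second moment bound for good sets -/
theorem fine_bound (C : ℝ) (hC : 0 ≤ C) (good : Finset ℕ → Prop) (m : ℕ) (V : Finset ℕ) (ν : Finset ℕ → ℝ)
    (hν : SpreadM C m V ν) (hgood : ∀ H, ν H ≠ 0 → good H) (T : ℕ) (hmT : m < T) :
    ((V.card.choose T : ℕ) : ℝ) ≤ ((Fine good m V T).card : ℝ) *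
      ∑ i ∈ range (m + 1), (3 * C * m ^ 2 / ((T : ℝ) - m)) ^ i := by
  classical
  have hmT' : (m : ℝ) < T := by exact_mod_cast hmT
  have hpos1 : (0 : ℝ) < (T : ℝ) - m := by linarith
  rcases le_or_gt T V.card with hTV | hTV
  · have h1 := second C hC m V ν hν T hmT hTV (Fine good m V T) (fun W hW ⟨H, hH, hHW, hne⟩ => by
      rw [mem_Fine]
      rw [mem_powersetCard] at hW hH
      exact ⟨hW, H, hHW, hH.2, hgood H hne⟩) (fun W hW => by
      rw [mem_Fine] at hW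
      exact mem_powersetCard.2 hW.1)
    exact h1.trans (mul_le_mul_of_nonneg_left (sum_bound C _ hC hpos1 m) (Nat.cast_nonneg _))
  · rw [Nat.choose_eq_zero_of_lt hTV, Nat.cast_zero]
    positivity

/-- the abstract form of the theorem -/
theorem typical (C : ℝ) (hC : 1 ≤ C) (good : Finset ℕ → Prop) (m : ℕ) (hm : 1 ≤ m) (V : Finset ℕ) (N₀ : ℕ)
    (h : ∀ V' ⊆ V, N₀ ≤ V'.card → ∃ ν, SpreadM C m V' ν ∧ ∀ H, ν H ≠ 0 → good H) (hN : 2 * N₀ ≤ V.card) (T : ℕ) :
    ((Bad good m V T).card : ℝ) ≤ 2 ^ (1 - T / (9 * C * m ^ 2) : ℝ) * (V.card.choose T : ℕ) ∧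
    (2 * m ≤ T → T ≤ m ^ 2 → (T / (12 * C * m ^ 2) : ℝ) ^ m * (V.card.choose T : ℕ) ≤ (Fine good m V T).card) := by
  classical
  have hm' : (1 : ℝ) ≤ m := by exact_mod_cast hm
  have hmm : (m : ℝ) ≤ (m : ℝ) ^ 2 := by nlinarith
  have hCm : (m : ℝ) ^ 2 ≤ C * (m : ℝ) ^ 2 := by nlinarith [sq_nonneg (m : ℝ)]
  refine ⟨?_, fun hT1 hT2 => ?_⟩
  · obtain ⟨T₀, hT₀⟩ : ∃ T₀ : ℕ, T₀ = ⌈8 * C * (m : ℝ) ^ 2⌉₊ := ⟨_, rfl⟩
    have hT₀1 : 8 * C * (m : ℝ) ^ 2 ≤ T₀ := by rw [hT₀]; exact Nat.le_ceil _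
    have hT₀2 : (T₀ : ℝ) < 8 * C * (m : ℝ) ^ 2 + 1 := by
      rw [hT₀]; exact Nat.ceil_lt_add_one (by positivity)
    have hT₀3 : (T₀ : ℝ) ≤ 9 * C * (m : ℝ) ^ 2 := by nlinarith
    have hT₀4 : (0 : ℝ) < T₀ := by nlinarith
    have hmT₀ : m < T₀ := by
      have : (m : ℝ) < T₀ := by nlinarith
      exact_mod_cast this
    have hstep : ∀ V' ⊆ V, N₀ ≤ V'.card → 2 * (Bad good m V' T₀).card ≤ V'.card.choose T₀ := by
      intro V' hV' hN'
      obtain ⟨ν, hν, hg⟩ := h V' hV' hN'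
      have h1 := fine_bound C (by linarith) good m V' ν hν hg T₀ hmT₀
      have h2 : ∑ i ∈ range (m + 1), (3 * C * (m : ℝ) ^ 2 / ((T₀ : ℝ) - m)) ^ i ≤ 2 := by
        apply geom_le_two
        · have : (0 : ℝ) < (T₀ : ℝ) - m := by nlinarith
          positivity
        · rw [div_le_iff₀ (by nlinarith)]
          nlinarith
      have h3 : ((V'.card.choose T₀ : ℕ) : ℝ) ≤ ((Fine good m V' T₀).card : ℝ) * 2 :=
        h1.trans (mul_le_mul_of_nonneg_left h2 (Nat.cast_nonneg _))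
      have h4 : V'.card.choose T₀ ≤ (Fine good m V' T₀).card * 2 := by exact_mod_cast h3
      have h5 := card_Fine_add good m V' T₀
      omega
    rcases Nat.lt_or_ge V.card (N₀ + T) with hcase | hcase
    · -- `T` is large: there is no bad set
      have h0 : Bad good m V T = ∅ := by
        rw [eq_empty_iff_forall_notMem]
        intro W hW
        rw [mem_Bad] at hW
        obtain ⟨ν, hν, hg⟩ := h W hW.1.1 (by rw [hW.1.2]; omega)
        obtain ⟨H, hH, hne⟩ := Finset.exists_ne_zero_of_sum_ne_zero (s := W.powersetCard m) (f := ν)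
          (by rw [hν.2.1]; exact one_ne_zero)
        rw [mem_powersetCard] at hH
        exact hW.2 H hH.1 hH.2 (hg H hne)
      rw [h0, card_empty, Nat.cast_zero]
      positivity
    · obtain ⟨s, hs⟩ : ∃ s : ℕ, s = T / T₀ := ⟨_, rfl⟩
      have h1 := expose good m T₀ N₀ V hstep s T V (Subset.refl _) (by rw [hs]; exact Nat.div_mul_le_self _ _) hcase
      have h1' : (2 : ℝ) ^ s * ((Bad good m V T).card : ℝ) ≤ ((V.card.choose T : ℕ) : ℝ) := by exact_mod_cast h1
      have h2 : (T : ℝ) / T₀ < s + 1 := by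
        rw [div_lt_iff₀ hT₀4]
        have : T < (s + 1) * T₀ := by
          rw [hs]
          have h3 := Nat.div_add_mod T T₀
          have h4 := Nat.mod_lt T (show T₀ > 0 by omega)
          nlinarith
        exact_mod_cast this
      have h3 : (T : ℝ) / (9 * C * (m : ℝ) ^ 2) ≤ T / T₀ := by
        apply div_le_div_of_nonneg_left (Nat.cast_nonneg _) hT₀4 hT₀3
      have h4 : (1 : ℝ) ≤ 2 ^ s * 2 ^ (1 - T / (9 * C * (m : ℝ) ^ 2) : ℝ) := by
        rw [← Real.rpow_natCast 2 s, ← Real.rpow_add (by norm_num)]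
        apply Real.one_le_rpow (by norm_num)
        linarith
      calc ((Bad good m V T).card : ℝ) ≤ (2 ^ s * 2 ^ (1 - T / (9 * C * (m : ℝ) ^ 2) : ℝ)) * (Bad good m V T).card :=
            le_mul_of_one_le_left (Nat.cast_nonneg _) h4
        _ = 2 ^ (1 - T / (9 * C * (m : ℝ) ^ 2) : ℝ) * (2 ^ s * (Bad good m V T).card) := by ring
        _ ≤ _ := mul_le_mul_of_nonneg_left h1' (by positivity)
  · have hT1' : 2 * (m : ℝ) ≤ T := by exact_mod_cast hT1
    have hT2' : (T : ℝ) ≤ (m : ℝ) ^ 2 := by exact_mod_cast hT2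
    have hT0 : (0 : ℝ) < T := by linarith
    obtain ⟨ν, hν, hg⟩ := h V (Subset.refl _) (by omega)
    have h1 := fine_bound C (by linarith) good m V ν hν hg T (by omega)
    have hC0 : 0 < C := by linarith
    have hy : 1 ≤ 6 * C * (m : ℝ) ^ 2 / T := by
      rw [le_div_iff₀ hT0]
      nlinarith
    have h2 : ∑ i ∈ range (m + 1), (3 * C * (m : ℝ) ^ 2 / ((T : ℝ) - m)) ^ i ≤ (12 * C * m ^ 2 / T) ^ m := by
      have h3 : ∀ i ∈ range (m + 1), (3 * C * (m : ℝ) ^ 2 / ((T : ℝ) - m)) ^ i ≤ (6 * C * m ^ 2 / T) ^ m := by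
        intro i hi
        have h4 : 3 * C * (m : ℝ) ^ 2 / ((T : ℝ) - m) ≤ 6 * C * m ^ 2 / T := by
          rw [div_le_div_iff₀ (by linarith) hT0]
          have : 0 ≤ C * (m : ℝ) ^ 2 := by positivity
          nlinarith
        have h5 : 0 ≤ 3 * C * (m : ℝ) ^ 2 / ((T : ℝ) - m) := by
          have : (0 : ℝ) < (T : ℝ) - m := by linarith
          positivity
        calc _ ≤ (6 * C * (m : ℝ) ^ 2 / T) ^ i := pow_le_pow_left₀ h5 h4 _
          _ ≤ _ := pow_le_pow_right₀ hy (Nat.lt_succ_iff.1 (mem_range.1 hi))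
      refine (sum_le_sum h3).trans ?_
      rw [sum_const, card_range, nsmul_eq_mul]
      have h6 : ((m + 1 : ℕ) : ℝ) ≤ 2 ^ m := by
        exact_mod_cast Nat.succ_le_of_lt Nat.lt_two_pow_self
      have h7 : (12 * C * (m : ℝ) ^ 2 / T) ^ m = 2 ^ m * (6 * C * (m : ℝ) ^ 2 / T) ^ m := by
        rw [← mul_pow]; congr 1; ring
      rw [h7]
      exact mul_le_mul_of_nonneg_right h6 (by positivity)
    have h3 : ((V.card.choose T : ℕ) : ℝ) ≤ ((Fine good m V T).card : ℝ) * (12 * C * m ^ 2 / T) ^ m :=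
      h1.trans (mul_le_mul_of_nonneg_left h2 (Nat.cast_nonneg _))
    calc (T / (12 * C * (m : ℝ) ^ 2)) ^ m * (V.card.choose T : ℕ) ≤
        (T / (12 * C * (m : ℝ) ^ 2)) ^ m * (((Fine good m V T).card : ℝ) * (12 * C * m ^ 2 / T) ^ m) :=
          mul_le_mul_of_nonneg_left h3 (by positivity)
      _ = ((T / (12 * C * (m : ℝ) ^ 2)) * (12 * C * m ^ 2 / T)) ^ m * ((Fine good m V T).card : ℝ) := by
          rw [mul_pow]; ring
      _ = _ := by
          have : (T / (12 * C * (m : ℝ) ^ 2)) * (12 * C * m ^ 2 / T) = 1 := by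
            field_simp
          rw [this, one_pow, one_mul]

end Pool.Agent.Helper50.TS
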