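import Mathlib
import Pool.Agent.Helper50.SP.Main
import Pool.Agent.Helper50.TS.Comb

/-! Typical subsets of an admissible set contain long exact patterns. -/

set_option autoImplicit false

open Finset Filter

namespace Pool.Agent.Helper50.TS

open Pool.Agent.Helper50.SP (Spread Exactly count main)

/-- `n ≡ a (mod q)`, the `n + h`, `h ∈ H`, are prime and they are the only primes in `[n - R, n + max H]` -/
def Consec (q a R : ℕ) (H : Finset ℕ) (n : ℕ) : Prop :=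
  n ≡ a [MOD q] ∧ (∀ h ∈ H, (n + h).Prime) ∧
    ∀ p : ℕ, p.Prime → n ≤ p + R → (∃ h ∈ H, p ≤ n + h) → ∃ h ∈ H, p = n + h

/-- the number of the `n ≤ x` with this property -/
noncomputable def number (q a R : ℕ) (H : Finset ℕ) (x : ℝ) : ℕ :=
  Set.ncard {n : ℕ | (n : ℝ) ≤ x ∧ Consec q a R H n}

theorem exists_first (P : Finset ℕ) : ∀ m : ℕ, m ≤ P.card →
    ∃ H ⊆ P, H.card = m ∧ ∀ h ∈ H, ∀ p ∈ P, p ≤ h → p ∈ H := by
  classical
  intro m
  induction m with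
  | zero => intro _; exact ⟨∅, empty_subset _, card_empty, fun h hh => absurd hh (notMem_empty _)⟩
  | succ m ih =>
    intro hm
    obtain ⟨H, hH, hHm, hH2⟩ := ih (by omega)
    have hne : (P \ H).Nonempty := by
      rw [← card_pos, card_sdiff_of_subset hH]
      omega
    obtain ⟨t, ht⟩ : ∃ t, t = (P \ H).min' hne := ⟨_, rfl⟩
    have ht1 : t ∈ P \ H := by rw [ht]; exact min'_mem _ _
    have ht2 : ∀ s ∈ P \ H, t ≤ s := fun s hs => by rw [ht]; exact min'_le _ _ hs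
    rw [Finset.mem_sdiff] at ht1
    refine ⟨insert t H, insert_subset ht1.1 hH, by rw [card_insert_of_notMem ht1.2, hHm], ?_⟩
    intro h hh p hp hph
    rw [mem_insert] at hh ⊢
    by_cases hpH : p ∈ H
    · exact Or.inr hpH
    · left
      rcases hh with rfl | hh
      · exact le_antisymm hph (ht2 p (Finset.mem_sdiff.2 ⟨hp, hpH⟩))
      · exact absurd (hH2 h hh p hp hph) hpH

theorem consec_of_exactly {q a R : ℕ} {P H : Finset ℕ} (hH : H ⊆ P) (hH2 : ∀ h ∈ H, ∀ p ∈ P, p ≤ h → p ∈ H)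
    {n : ℕ} (hn : Exactly q a R P n) : Consec q a R H n := by
  obtain ⟨h1, h2, h3⟩ := hn
  refine ⟨h1, fun h hh => h2 h (hH hh), fun p hp hp1 hp2 => ?_⟩
  obtain ⟨y, hy, hy2⟩ := hp2
  obtain ⟨z, hz, hz2⟩ := h3 p hp hp1 ⟨y, hH hy, by omega⟩
  exact ⟨z, hH2 y hy z hz (by omega), hz2⟩

theorem count_le_number {q a R : ℕ} {P H : Finset ℕ} (hH : H ⊆ P) (hH2 : ∀ h ∈ H, ∀ p ∈ P, p ≤ h → p ∈ H)
    (x : ℝ) : count q a R P x ≤ number q a R H x := by
  unfold count number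
  refine Set.ncard_le_ncard ?_ ?_
  · intro n hn
    exact ⟨hn.1, consec_of_exactly hH hH2 hn.2⟩
  · apply (Set.finite_Iic ⌊x⌋₊).subset
    intro n hn
    exact Nat.le_floor hn.1

/-- the distribution of the first `m` elements -/
theorem push (C C₁ : ℝ) (hC : 0 ≤ C) (hCC : C ≤ C₁) (m : ℕ) (V : Finset ℕ) (μ : Finset ℕ → ℝ) (hμ : Spread C m V μ) (good : Finset ℕ → Prop)
    (hgood : ∀ P, μ P ≠ 0 → ∀ H ⊆ P, (∀ h ∈ H, ∀ p ∈ P, p ≤ h → p ∈ H) → good H) :
    ∃ ν, SpreadM C₁ m V ν ∧ ∀ H, ν H ≠ 0 → good H := by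
  classical
  have h1 : ∀ P : Finset ℕ, ∃ H : Finset ℕ, m ≤ P.card → H ⊆ P ∧ H.card = m ∧ ∀ h ∈ H, ∀ p ∈ P, p ≤ h → p ∈ H := by
    intro P
    by_cases hP : m ≤ P.card
    · obtain ⟨H, h1, h2, h3⟩ := exists_first P m hP
      exact ⟨H, fun _ => ⟨h1, h2, h3⟩⟩
    · exact ⟨∅, fun h => absurd h hP⟩
  choose first hfirst using h1
  have hkey : ∀ (Q : Finset ℕ → Prop) [DecidablePred Q],
      ∑ H ∈ (V.powersetCard m).filter Q, ∑ P ∈ V.powerset, (if first P = H then μ P else 0) =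
        ∑ P ∈ V.powerset, if Q (first P) then μ P else 0 := by
    intro Q _
    rw [sum_comm]
    refine sum_congr rfl fun P hP => ?_
    rw [sum_ite_eq]
    by_cases h0 : μ P = 0
    · simp [h0]
    · obtain ⟨hPV, hPm⟩ := hμ.2.1 P h0
      obtain ⟨h1, h2, h3⟩ := hfirst P hPm
      have h4 : first P ∈ V.powersetCard m := mem_powersetCard.2 ⟨h1.trans hPV, h2⟩
      by_cases h5 : Q (first P)
      · rw [if_pos h5, if_pos (mem_filter.2 ⟨h4, h5⟩)]
      · rw [if_neg h5, if_neg (fun h => h5 (mem_filter.1 h).2)]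
  refine ⟨fun H => ∑ P ∈ V.powerset, if first P = H then μ P else 0, ⟨fun H => ?_, ?_, fun U hU hUm => ?_⟩, fun H hH => ?_⟩
  · apply sum_nonneg
    intro P _
    split_ifs
    · exact hμ.1 P
    · exact le_rfl
  · have := hkey (fun _ => True)
    simp only [filter_true, if_true] at this
    rw [this]
    exact hμ.2.2.1
  · rw [hkey (fun H => U ⊆ H)]
    have h6 : ∑ P ∈ V.powerset, (if U ⊆ first P then μ P else 0) ≤ ∑ P ∈ V.powerset with U ⊆ P, μ P := by
      rw [sum_filter]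
      refine sum_le_sum fun P _ => ?_
      by_cases h0 : μ P = 0
      · simp [h0]
      · obtain ⟨hPV, hPm⟩ := hμ.2.1 P h0
        obtain ⟨h1, h2, h3⟩ := hfirst P hPm
        by_cases h5 : U ⊆ first P
        · rw [if_pos h5, if_pos (h5.trans h1)]
        · rw [if_neg h5]
          split_ifs
          · exact hμ.1 P
          · exact le_rfl
    refine h6.trans ((hμ.2.2.2 U hU hUm).trans ?_)
    gcongr
  · obtain ⟨P, hP, hne⟩ := Finset.exists_ne_zero_of_sum_ne_zero hH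
    have h7 : first P = H := by
      by_contra hcon
      exact hne (if_neg hcon)
    rw [if_pos h7] at hne
    obtain ⟨hPV, hPm⟩ := hμ.2.1 P hne
    obtain ⟨h1, h2, h3⟩ := hfirst P hPm
    rw [h7] at h1 h3
    exact hgood P hne H h1 h3

/-- Most sets with many more than `m²` elements contain a good set with `m` elements. -/
def Typical (C : ℝ) (m : ℕ) (V : Finset ℕ) (good : Finset ℕ → Prop) : Prop := ∀ T : ℕ,
  (Set.ncard {W : Finset ℕ | W ⊆ V ∧ W.card = T ∧ ¬ ∃ H ⊆ W, H.card = m ∧ good H} : ℝ) ≤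
      2 ^ (1 - T / (C * m ^ 2) : ℝ) * (V.card.choose T : ℕ) ∧
    (2 * m ≤ T → T ≤ m ^ 2 → (T / (C * m ^ 2) : ℝ) ^ m * (V.card.choose T : ℕ) ≤
      Set.ncard {W : Finset ℕ | W ⊆ V ∧ W.card = T ∧ ∃ H ⊆ W, H.card = m ∧ good H})

theorem typical' (C C' : ℝ) (hC : 1 ≤ C) (hC' : 12 * C ≤ C') (good : Finset ℕ → Prop) (m : ℕ) (hm : 1 ≤ m) (V : Finset ℕ) (N₀ : ℕ)
    (h : ∀ V' ⊆ V, N₀ ≤ V'.card → ∃ ν, SpreadM C m V' ν ∧ ∀ H, ν H ≠ 0 → good H) (hN : 2 * N₀ ≤ V.card) :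
    Typical C' m V good := by
  classical
  intro T
  have hm' : (1 : ℝ) ≤ m := by exact_mod_cast hm
  have hC0 : 0 < C := by linarith
  have hC0' : 0 < C' := by linarith
  obtain ⟨h1, h2⟩ := typical C hC good m hm V N₀ h hN T
  have e1 : {W : Finset ℕ | W ⊆ V ∧ W.card = T ∧ ¬ ∃ H ⊆ W, H.card = m ∧ good H} = (Bad good m V T : Set (Finset ℕ)) := by
    ext W
    rw [mem_coe, mem_Bad, Set.mem_ofPred_eq, and_assoc]
    push Not
    rfl
  have e2 : {W : Finset ℕ | W ⊆ V ∧ W.card = T ∧ ∃ H ⊆ W, H.card = m ∧ good H} = (Fine good m V T : Set (Finset ℕ)) := by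
    ext W
    rw [mem_coe, mem_Fine, Set.mem_ofPred_eq, and_assoc]
  rw [e1, e2, Set.ncard_coe_finset, Set.ncard_coe_finset]
  refine ⟨h1.trans ?_, fun h3 h4 => le_trans ?_ (h2 h3 h4)⟩
  · apply mul_le_mul_of_nonneg_right _ (Nat.cast_nonneg _)
    apply Real.rpow_le_rpow_of_exponent_le (by norm_num)
    apply sub_le_sub_left
    apply div_le_div_of_nonneg_left (Nat.cast_nonneg _) (by positivity)
    apply mul_le_mul_of_nonneg_right _ (by positivity)
    linarith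
  · apply mul_le_mul_of_nonneg_right _ (Nat.cast_nonneg _)
    apply pow_le_pow_left₀ (by positivity)
    apply div_le_div_of_nonneg_left (Nat.cast_nonneg _) (by positivity)
    apply mul_le_mul_of_nonneg_right hC' (by positivity)

theorem final (ε : ℝ) (hε : 0 < ε) : ∃ C : ℝ, 0 < C ∧ ∀ m : ℕ, 1 ≤ m → ∃ B : ℕ, ∀ V : Finset ℕ,
    (4 + ε) * m + C ≤ Real.log V.card → (∀ p : ℕ, p.Prime → ∃ t : ℕ, ∀ v ∈ V, ¬ p ∣ t + v) →
    ∀ q a : ℕ, 1 ≤ q → (∀ v ∈ V, Nat.Coprime (a + v) q) →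
    (∀ R : ℕ, ∀ᶠ x : ℝ in atTop, Typical C m V (fun H => x / Real.log x ^ B ≤ number q a R H x)) ∧
    Typical C m V (fun H => ∀ R : ℕ, ∃ᶠ x : ℝ in atTop, x / Real.log x ^ B ≤ number q a R H x) := by
  classical
  obtain ⟨C, hC, hmain⟩ := main ε hε
  refine ⟨12 * (C + 1) + 2, by linarith, fun m hm => ?_⟩
  obtain ⟨B, hB⟩ := hmain m hm
  refine ⟨B, fun V hV hadm q a hq hcop => ?_⟩
  have hm' : (1 : ℝ) ≤ m := by exact_mod_cast hm
  obtain ⟨N₀, hN₀⟩ : ∃ N₀ : ℕ, N₀ = V.card / 2 := ⟨_, rfl⟩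
  have hVpos : 0 < Real.log V.card := by nlinarith
  have hV0 : (1 : ℝ) < V.card := by
    by_contra hcon
    exact absurd hVpos (not_lt.2 (Real.log_nonpos (Nat.cast_nonneg _) (not_lt.1 hcon)))
  have hV2 : 2 ≤ V.card := by exact_mod_cast hV0
  have hN1 : 1 ≤ N₀ := by omega
  have hN3 : V.card ≤ 3 * N₀ := by omega
  have hN3' : (V.card : ℝ) ≤ 3 * N₀ := by exact_mod_cast hN3
  have hN1' : (1 : ℝ) ≤ N₀ := by exact_mod_cast hN1
  have hlog3 : Real.log 3 ≤ 2 := by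
    have := Real.log_le_sub_one_of_pos (show (0 : ℝ) < 3 by norm_num)
    linarith
  have hlogN : Real.log V.card ≤ 2 + Real.log N₀ := by
    calc Real.log V.card ≤ Real.log (3 * N₀) := Real.log_le_log (by linarith) hN3'
      _ = Real.log 3 + Real.log N₀ := Real.log_mul (by norm_num) (by linarith)
      _ ≤ _ := by linarith
  have hV' : ∀ V' ⊆ V, N₀ ≤ V'.card →
      (∀ R : ℕ, ∀ᶠ x : ℝ in atTop, ∃ μ : Finset ℕ → ℝ, Spread C m V' μ ∧
        ∀ P, μ P ≠ 0 → x / Real.log x ^ B ≤ count q a R P x) ∧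
      ∃ μ : Finset ℕ → ℝ, Spread C m V' μ ∧ ∀ R : ℕ, ∃ᶠ x : ℝ in atTop,
        ∀ P, μ P ≠ 0 → x / Real.log x ^ B ≤ count q a R P x := by
    intro V' hV' hN'
    refine hB V' ?_ (fun p hp => ?_) q a hq (fun v hv => hcop v (hV' hv))
    · have h1 : Real.log N₀ ≤ Real.log V'.card := Real.log_le_log (by linarith) (by exact_mod_cast hN')
      linarith
    · obtain ⟨t, ht⟩ := hadm p hp
      exact ⟨t, fun v hv => ht v (hV' hv)⟩
  refine ⟨fun R => ?_, ?_⟩
  · have hev : ∀ᶠ x : ℝ in atTop, ∀ V' ∈ V.powerset.filter (fun V' => N₀ ≤ V'.card),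
        ∃ μ : Finset ℕ → ℝ, Spread C m V' μ ∧ ∀ P, μ P ≠ 0 → x / Real.log x ^ B ≤ count q a R P x := by
      rw [Filter.eventually_all_finset]
      intro V' hV'2
      rw [mem_filter, mem_powerset] at hV'2
      exact (hV' V' hV'2.1 hV'2.2).1 R
    filter_upwards [hev] with x hx
    refine typical' (C + 1) _ (by linarith) (by linarith) _ m hm V N₀ (fun V' hV'1 hV'2 => ?_) (by omega)
    obtain ⟨μ, hμ, hμ2⟩ := hx V' (by rw [mem_filter, mem_powerset]; exact ⟨hV'1, hV'2⟩)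
    refine push C (C + 1) hC.le (by linarith) m V' μ hμ _ (fun P hP H hH hH2 => ?_)
    refine (hμ2 P hP).trans ?_
    exact_mod_cast count_le_number hH hH2 x
  · refine typical' (C + 1) _ (by linarith) (by linarith) _ m hm V N₀ (fun V' hV'1 hV'2 => ?_) (by omega)
    obtain ⟨μ, hμ, hμ2⟩ := (hV' V' hV'1 hV'2).2
    refine push C (C + 1) hC.le (by linarith) m V' μ hμ _ (fun P hP H hH hH2 R => ?_)
    refine (hμ2 R).mono fun x hx => (hx P hP).trans ?_
    exact_mod_cast count_le_number hH hH2 x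

end Pool.Agent.Helper50.TS
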